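import Mathlib
import Pool.Agent.H576.CE.StmP

/-!
# Random shift clusters with polynomial tails (task CE SHIFTP of helper576)
-/

set_option autoImplicit false
set_option linter.unusedSectionVars false

namespace Pool.Agent.H977.CEP

open Finset Pool.Agent.TH112.BW Pool.Agent.H576.CE

/-- the shift of rank `i` -/
noncomputable def sg (n a i : ℕ) : ℝ := ((n : ℝ) / ((i : ℝ) + 1)) ^ ((a : ℝ)⁻¹)

theorem sg_pow (n a i : ℕ) (ha : 1 ≤ a) : sg n a i ^ a = (n : ℝ) / ((i : ℝ) + 1) := by
  unfold sg
  exact Real.rpow_inv_natCast_pow (by positivity) (by omega)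

theorem sg_ge (n a i : ℕ) (hi : i < n) : 1 ≤ sg n a i := by
  unfold sg
  refine Real.one_le_rpow ?_ (by positivity)
  rw [le_div_iff₀ (by positivity), one_mul]
  exact_mod_cast hi

theorem sg_nonneg (n a i : ℕ) : 0 ≤ sg n a i := by
  unfold sg
  positivity

theorem sg_pow_le (n a i : ℕ) (ha : 1 ≤ a) : sg n a i ^ a ≤ n := by
  rw [sg_pow n a i ha, div_le_iff₀ (by positivity)]
  have : (0 : ℝ) ≤ n * i := by positivity
  nlinarith

theorem level (a n : ℕ) (ha : 1 ≤ a) (θ : ℝ) :
    ∑ i ∈ range n, 1 / (1 + max (θ - sg n a i) 0) ^ (a + 2) ≤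
      2 ^ (a + 2) * ((((range n).filter (fun i => θ < sg n a i)).card : ℝ) + 2) := by
  have h2a : (1 : ℝ) ≤ 2 ^ a := one_le_pow₀ (by norm_num)
  rw [← Finset.sum_filter_add_sum_filter_not (range n) (fun i => θ < sg n a i)]
  obtain ⟨Ng, hNg⟩ : ∃ Ng : ℝ, Ng = (((range n).filter (fun i => θ < sg n a i)).card : ℝ) := ⟨_, rfl⟩
  have hNg0 : 0 ≤ Ng := by rw [hNg]; positivity
  have h1 : ∑ i ∈ (range n).filter (fun i => θ < sg n a i), 1 / (1 + max (θ - sg n a i) 0) ^ (a + 2)
      ≤ Ng := by
    calc ∑ i ∈ (range n).filter (fun i => θ < sg n a i), 1 / (1 + max (θ - sg n a i) 0) ^ (a + 2)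
        ≤ ∑ i ∈ (range n).filter (fun i => θ < sg n a i), (1 : ℝ) := by
          refine Finset.sum_le_sum fun i _ => ?_
          rw [div_le_one (by positivity)]
          exact one_le_pow₀ (by linarith [le_max_right (θ - sg n a i) 0])
      _ = Ng := by rw [Finset.sum_const, nsmul_eq_mul, mul_one, hNg]
  rw [← hNg]
  rcases ((range n).filter (fun i => ¬ θ < sg n a i)).eq_empty_or_nonempty with hT | ⟨i₀, hi₀⟩
  · rw [hT, Finset.sum_empty, add_zero, pow_add]
    nlinarith
  · have hθ1 : 1 ≤ θ := by
      rw [mem_filter, mem_range, not_lt] at hi₀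
      exact (sg_ge n a i₀ hi₀.1).trans hi₀.2
    obtain ⟨c, hc⟩ : ∃ c : ℝ, c = n / θ ^ a := ⟨_, rfl⟩
    have hθa : 1 ≤ θ ^ a := one_le_pow₀ hθ1
    have hθ0 : 0 < θ ^ a := by linarith
    have hc0 : 0 ≤ c := by rw [hc]; positivity
    have hcn : c ≤ n := by
      rw [hc, div_le_iff₀ hθ0]
      have : (0 : ℝ) ≤ n := Nat.cast_nonneg n
      nlinarith
    have hcN : c ≤ Ng + 1 := by
      have h2 : range (⌈c⌉₊ - 1) ⊆ (range n).filter (fun i => θ < sg n a i) := by
        intro i hi
        rw [mem_range] at hi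
        have h3 : i + 1 < ⌈c⌉₊ := by omega
        rw [Nat.lt_ceil] at h3
        push_cast at h3
        rw [mem_filter, mem_range]
        refine ⟨?_, ?_⟩
        · have h4 : ((i : ℝ) + 1) < n := h3.trans_le hcn
          have h5 : i + 1 < n := by exact_mod_cast h4
          omega
        · refine lt_of_pow_lt_pow_left₀ a (sg_nonneg n a i) ?_
          rw [sg_pow n a i ha, lt_div_iff₀ (by positivity)]
          rw [hc, lt_div_iff₀ hθ0] at h3
          linarith
      have h4 := Finset.card_le_card h2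
      rw [card_range] at h4
      have h5 : (⌈c⌉₊ : ℝ) ≤ Ng + 1 := by
        rw [hNg]
        have h6 : ⌈c⌉₊ ≤ ((range n).filter (fun i => θ < sg n a i)).card + 1 := by omega
        exact_mod_cast h6
      exact (Nat.le_ceil c).trans h5
    have h2 : ∑ i ∈ (range n).filter (fun i => ¬ θ < sg n a i),
        1 / (1 + max (θ - sg n a i) 0) ^ (a + 2) ≤ 2 ^ a * c * 2 := by
      calc ∑ i ∈ (range n).filter (fun i => ¬ θ < sg n a i), 1 / (1 + max (θ - sg n a i) 0) ^ (a + 2)
          ≤ ∑ i ∈ (range n).filter (fun i => ¬ θ < sg n a i),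
              1 / (1 + (⌊θ - sg n a i⌋₊ : ℝ)) ^ (a + 2) := by
            refine Finset.sum_le_sum fun i hi => ?_
            rw [mem_filter, not_lt] at hi
            refine one_div_le_one_div_of_le (by positivity) (pow_le_pow_left₀ (by positivity) ?_ _)
            have h3 : (⌊θ - sg n a i⌋₊ : ℝ) ≤ θ - sg n a i := Nat.floor_le (by linarith [hi.2])
            linarith [le_max_left (θ - sg n a i) 0]
        _ = ∑ k ∈ range (⌊θ⌋₊ + 1), ∑ i ∈ ((range n).filter (fun i => ¬ θ < sg n a i)).filter
              (fun i => ⌊θ - sg n a i⌋₊ = k), 1 / (1 + (⌊θ - sg n a i⌋₊ : ℝ)) ^ (a + 2) := by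
            rw [Finset.sum_fiberwise_of_maps_to]
            intro i hi
            rw [mem_filter, mem_range] at hi
            rw [mem_range, Nat.lt_succ_iff]
            exact Nat.floor_le_floor (by linarith [sg_ge n a i hi.1])
        _ ≤ ∑ k ∈ range (⌊θ⌋₊ + 1), 2 ^ a * c * (((k : ℝ) + 1) ^ 2)⁻¹ := by
            refine Finset.sum_le_sum fun k _ => ?_
            have h3 : ∀ i ∈ ((range n).filter (fun i => ¬ θ < sg n a i)).filter
                (fun i => ⌊θ - sg n a i⌋₊ = k),
                1 / (1 + (⌊θ - sg n a i⌋₊ : ℝ)) ^ (a + 2) = 1 / (1 + (k : ℝ)) ^ (a + 2) := by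
              intro i hi
              rw [(mem_filter.mp hi).2]
            rw [Finset.sum_congr rfl h3, Finset.sum_const, nsmul_eq_mul]
            have hk0 : (0 : ℝ) ≤ k := Nat.cast_nonneg k
            have h4 : ((((range n).filter (fun i => ¬ θ < sg n a i)).filter
                (fun i => ⌊θ - sg n a i⌋₊ = k)).card : ℝ) ≤ ((k : ℝ) + 2) ^ a * c := by
              have h5 : ((range n).filter (fun i => ¬ θ < sg n a i)).filter
                  (fun i => ⌊θ - sg n a i⌋₊ = k) ⊆ range ⌊((k : ℝ) + 2) ^ a * c⌋₊ := by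
                intro i hi
                rw [mem_filter, mem_filter, mem_range, not_lt] at hi
                obtain ⟨⟨hi1, hi2⟩, hi3⟩ := hi
                rw [mem_range, ← Nat.succ_le_iff]
                apply Nat.le_floor
                have h6 : θ - sg n a i < k + 1 := by
                  rw [← hi3]
                  exact Nat.lt_floor_add_one _
                have h7 := sg_ge n a i hi1
                have h8 : θ ≤ sg n a i * ((k : ℝ) + 2) := by nlinarith
                have h9 : θ ^ a ≤ (n : ℝ) / ((i : ℝ) + 1) * ((k : ℝ) + 2) ^ a := by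
                  rw [← sg_pow n a i ha, ← mul_pow]
                  exact pow_le_pow_left₀ (by linarith) h8 a
                rw [div_mul_eq_mul_div, le_div_iff₀ (by positivity)] at h9
                rw [hc, ← mul_div_assoc, le_div_iff₀ hθ0]
                push_cast
                linarith
              refine (Nat.cast_le.mpr (Finset.card_le_card h5)).trans ?_
              rw [card_range]
              exact Nat.floor_le (by positivity)
            have h5 : ((k : ℝ) + 2) ^ a ≤ 2 ^ a * ((k : ℝ) + 1) ^ a := by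
              rw [← mul_pow]
              exact pow_le_pow_left₀ (by positivity) (by linarith) a
            calc ((((range n).filter (fun i => ¬ θ < sg n a i)).filter
                (fun i => ⌊θ - sg n a i⌋₊ = k)).card : ℝ) * (1 / (1 + (k : ℝ)) ^ (a + 2))
                ≤ ((k : ℝ) + 2) ^ a * c * (1 / (1 + (k : ℝ)) ^ (a + 2)) :=
                  mul_le_mul_of_nonneg_right h4 (by positivity)
              _ ≤ 2 ^ a * ((k : ℝ) + 1) ^ a * c * (1 / (1 + (k : ℝ)) ^ (a + 2)) :=
                  mul_le_mul_of_nonneg_right (mul_le_mul_of_nonneg_right h5 hc0) (by positivity)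
              _ = 2 ^ a * c * (((k : ℝ) + 1) ^ 2)⁻¹ := by
                  rw [add_comm 1 (k : ℝ), pow_add]
                  field_simp
        _ = 2 ^ a * c * ∑ k ∈ range (⌊θ⌋₊ + 1), (((k : ℝ) + 1) ^ 2)⁻¹ := by rw [Finset.mul_sum]
        _ ≤ 2 ^ a * c * 2 := by
            refine mul_le_mul_of_nonneg_left ?_ (by positivity)
            have h3 := sum_inv_sq 0 (⌊θ⌋₊ + 1) (by omega)
            rw [← Finset.range_eq_Ico] at h3
            refine h3.trans ?_
            norm_num
    have h3 : 2 ^ a * c * 2 ≤ 2 ^ a * (Ng + 1) * 2 := by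
      have := mul_le_mul_of_nonneg_left hcN (show (0 : ℝ) ≤ 2 ^ a by positivity)
      linarith
    rw [pow_add]
    nlinarith

variable {V : Type} [Fintype V] [DecidableEq V]

/-- the largest value -/
noncomputable def Fs [Nonempty V] (n a : ℕ) (dd : V → V → ℕ) (ω : V → Fin n) (x : V) : ℝ :=
  (Finset.univ : Finset V).sup' Finset.univ_nonempty (fun u => sg n a (ω u) - (dd x u : ℝ))

open Classical in
theorem exists_shiftp [Nonempty V] (a : ℕ) (ha : 1 ≤ a) (dd : V → V → ℕ) :
    ∃ ω : V → Fin (Fintype.card V), ∑ x, ∑ u,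
      1 / (1 + (Fs (Fintype.card V) a dd ω x - (sg (Fintype.card V) a (ω u) - (dd x u : ℝ)))) ^ (a + 2)
      ≤ 3 * 2 ^ (a + 2) * Fintype.card V := by
  set n := Fintype.card V with hn
  have hnpos : 0 < n := Fintype.card_pos
  have hnR : (0 : ℝ) < n := by exact_mod_cast hnpos
  set win : (V → Fin n) → V → V → Prop := fun ω x u =>
    ∀ u', u' ≠ u → sg n a (ω u') - (dd x u' : ℝ) < sg n a (ω u) - (dd x u : ℝ) with hwin
  set R : (V → Fin n) → V → V → ℝ := fun ω x u =>
    1 / (1 + (Fs n a dd ω x - (sg n a (ω u) - (dd x u : ℝ)))) ^ (a + 2) with hR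
  -- one pair
  have hpair : ∀ x u, ∑ ω : V → Fin n, R ω x u
      ≤ 2 ^ (a + 2) * (∑ ω : V → Fin n, (if win ω x u then (1 : ℝ) else 0)
        + 2 * (Fintype.card (V → Fin n) : ℝ) / n) := by
    intro x u
    have hfix : ∀ ω : V → Fin n, ∑ i : Fin n, R (Function.update ω u i) x u
        ≤ 2 ^ (a + 2) * (∑ i : Fin n, (if win (Function.update ω u i) x u then (1 : ℝ) else 0) + 2) := by
      intro ω
      set M : ℝ := (Finset.univ : Finset V).sup' Finset.univ_nonempty
        (fun u' => if u' = u then 1 - (dd x u : ℝ) else sg n a (ω u') - (dd x u' : ℝ)) with hM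
      have hMle : ∀ i : Fin n, M ≤ Fs n a dd (Function.update ω u i) x := by
        intro i
        rw [hM]
        refine Finset.sup'_le _ _ fun u' _ => ?_
        have h1 : sg n a ((Function.update ω u i) u') - (dd x u' : ℝ) ≤
            Fs n a dd (Function.update ω u i) x :=
          Finset.le_sup' (fun u' => sg n a ((Function.update ω u i) u') - (dd x u' : ℝ))
            (Finset.mem_univ u')
        by_cases hu : u' = u
        · simp only [hu, if_true]
          rw [hu, Function.update_self] at h1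
          linarith [sg_ge n a i i.isLt]
        · simp only [if_neg hu]
          rw [Function.update_of_ne hu] at h1
          exact h1
      have hself : ∀ i : Fin n, sg n a i - (dd x u : ℝ) ≤ Fs n a dd (Function.update ω u i) x := by
        intro i
        have h1 : sg n a ((Function.update ω u i) u) - (dd x u : ℝ) ≤
            Fs n a dd (Function.update ω u i) x :=
          Finset.le_sup' (fun u' => sg n a ((Function.update ω u i) u') - (dd x u' : ℝ))
            (Finset.mem_univ u)
        rwa [Function.update_self] at h1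
      have hwinM : ∀ i : Fin n, M < sg n a i - (dd x u : ℝ) → win (Function.update ω u i) x u := by
        intro i hi u' hu'
        rw [Function.update_self, Function.update_of_ne hu']
        refine lt_of_le_of_lt ?_ hi
        calc sg n a (ω u') - (dd x u' : ℝ) =
              (fun u' => if u' = u then 1 - (dd x u : ℝ) else sg n a (ω u') - (dd x u' : ℝ)) u' :=
              (if_neg hu').symm
          _ ≤ M := Finset.le_sup' (fun u' => if u' = u then 1 - (dd x u : ℝ) else
              sg n a (ω u') - (dd x u' : ℝ)) (Finset.mem_univ u')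
      set θ := M + (dd x u : ℝ) with hθ
      have h1 : ∀ i : Fin n, R (Function.update ω u i) x u
          ≤ 1 / (1 + max (θ - sg n a i) 0) ^ (a + 2) := by
        intro i
        simp only [hR]
        rw [Function.update_self]
        refine one_div_le_one_div_of_le (by positivity) (pow_le_pow_left₀ (by positivity) ?_ _)
        have h2 := hMle i
        have h3 := hself i
        have h4 : max (θ - sg n a i) 0 ≤
            Fs n a dd (Function.update ω u i) x - (sg n a i - (dd x u : ℝ)) :=
          max_le (by rw [hθ]; linarith) (by linarith)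
        linarith
      have h2 := Finset.sum_le_sum fun i (_ : i ∈ (Finset.univ : Finset (Fin n))) => h1 i
      have h3 : ∑ i : Fin n, 1 / (1 + max (θ - sg n a i) 0) ^ (a + 2) =
          ∑ i ∈ Finset.range n, 1 / (1 + max (θ - sg n a i) 0) ^ (a + 2) :=
        Fin.sum_univ_eq_sum_range (fun i => 1 / (1 + max (θ - sg n a i) 0) ^ (a + 2)) n
      have h4 := level a n ha θ
      have h5 : (((Finset.range n).filter (fun i => θ < sg n a i)).card : ℝ)
          ≤ ∑ i : Fin n, (if win (Function.update ω u i) x u then (1 : ℝ) else 0) := by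
        have e1 : (((Finset.range n).filter (fun i => θ < sg n a i)).card : ℝ)
            = ∑ i ∈ Finset.range n, (if θ < sg n a i then (1 : ℝ) else 0) := by
          rw [Finset.sum_boole]
        rw [e1, ← Fin.sum_univ_eq_sum_range (fun i => if θ < sg n a i then (1 : ℝ) else 0) n]
        refine Finset.sum_le_sum fun i _ => ?_
        by_cases hi : θ < sg n a i
        · rw [if_pos hi, if_pos (hwinM i (by rw [hθ] at hi; linarith))]
        · rw [if_neg hi]
          split_ifs <;> norm_num
      rw [h3] at h2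
      refine h2.trans (h4.trans ?_)
      exact mul_le_mul_of_nonneg_left (by linarith) (by positivity)
    have h1 := Finset.sum_le_sum fun ω (_ : ω ∈ (Finset.univ : Finset (V → Fin n))) => hfix ω
    rw [sum_update n u (fun ω => R ω x u), ← Finset.mul_sum, Finset.sum_add_distrib,
      sum_update n u (fun ω => if win ω x u then (1 : ℝ) else 0)] at h1
    rw [Finset.sum_const, nsmul_eq_mul, Finset.card_univ] at h1
    have h2 : (n : ℝ) * ∑ ω : V → Fin n, R ω x u ≤
        n * (2 ^ (a + 2) * (∑ ω : V → Fin n, (if win ω x u then (1 : ℝ) else 0)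
        + 2 * (Fintype.card (V → Fin n) : ℝ) / n)) := by
      refine h1.trans (le_of_eq ?_)
      have h3 : (n : ℝ) * (2 * (Fintype.card (V → Fin n) : ℝ) / n) =
          (Fintype.card (V → Fin n) : ℝ) * 2 := by
        rw [mul_div_cancel₀ _ hnR.ne']
        ring
      rw [mul_left_comm, mul_add (n : ℝ), h3]
    exact le_of_mul_le_mul_left h2 hnR
  -- one point
  have hpoint : ∀ x, ∑ ω : V → Fin n, ∑ u, R ω x u
      ≤ 3 * 2 ^ (a + 2) * (Fintype.card (V → Fin n) : ℝ) := by
    intro x
    rw [Finset.sum_comm]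
    have h1 := Finset.sum_le_sum fun u (_ : u ∈ (Finset.univ : Finset V)) => hpair x u
    have hsw : ∑ u : V, ∑ ω : V → Fin n, (if win ω x u then (1 : ℝ) else 0)
        = ∑ ω : V → Fin n, ∑ u : V, (if win ω x u then (1 : ℝ) else 0) := Finset.sum_comm
    rw [← Finset.mul_sum, Finset.sum_add_distrib, Finset.sum_const, nsmul_eq_mul, Finset.card_univ,
      ← hn, hsw] at h1
    have h2 : ∑ ω : V → Fin n, ∑ u, (if win ω x u then (1 : ℝ) else 0) ≤
        (Fintype.card (V → Fin n) : ℝ) := by
      calc _ ≤ ∑ ω : V → Fin n, (1 : ℝ) := by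
            refine Finset.sum_le_sum fun ω _ => ?_
            rw [Finset.sum_boole]
            have : (Finset.univ.filter (fun u => win ω x u)).card ≤ 1 := by
              rw [Finset.card_le_one]
              intro a' ha' b hb
              by_contra hab
              have h1 := (Finset.mem_filter.mp ha').2 b (fun h => hab h.symm)
              have h2 := (Finset.mem_filter.mp hb).2 a' hab
              exact absurd h1 (not_lt.mpr h2.le)
            exact_mod_cast this
        _ = _ := by simp
    have h3 : (n : ℝ) * (2 * (Fintype.card (V → Fin n) : ℝ) / n) =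
        2 * (Fintype.card (V → Fin n) : ℝ) := by
      rw [mul_div_cancel₀ _ hnR.ne']
    rw [h3] at h1
    have h4 : (2 : ℝ) ^ (a + 2) * (∑ ω : V → Fin n, ∑ u, (if win ω x u then (1 : ℝ) else 0) +
        2 * (Fintype.card (V → Fin n) : ℝ)) ≤ 2 ^ (a + 2) * (3 * (Fintype.card (V → Fin n) : ℝ)) :=
      mul_le_mul_of_nonneg_left (by linarith) (by positivity)
    linarith
  have hall : ∑ ω : V → Fin n, ∑ x, ∑ u, R ω x u
      ≤ ∑ _ω : V → Fin n, 3 * 2 ^ (a + 2) * (n : ℝ) := by
    rw [Finset.sum_comm, Finset.sum_const, nsmul_eq_mul, Finset.card_univ]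
    calc _ ≤ ∑ x : V, 3 * 2 ^ (a + 2) * (Fintype.card (V → Fin n) : ℝ) :=
          Finset.sum_le_sum fun x _ => hpoint x
      _ = (Fintype.card (V → Fin n) : ℝ) * (3 * 2 ^ (a + 2) * n) := by
          rw [Finset.sum_const, nsmul_eq_mul, Finset.card_univ, ← hn]; ring
  have : Nonempty (Fin n) := ⟨⟨0, hnpos⟩⟩
  obtain ⟨ω, -, hω⟩ := Finset.exists_le_of_sum_le (s := (Finset.univ : Finset (V → Fin n)))
    Finset.univ_nonempty hall
  exact ⟨ω, hω⟩

theorem ce_shiftp : S_SHIFTP := by
  intro a ha V _ _ G hG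
  classical
  haveI : Nonempty V := hG.nonempty
  set n := Fintype.card V with hn
  obtain ⟨ω, hω⟩ : ∃ ω : V → Fin n, ∑ x, ∑ u, 1 / (1 + (Fs n a (fun x u : V => G.dist x u) ω x -
      (sg n a (ω u) - (G.dist x u : ℝ)))) ^ (a + 2) ≤ 3 * 2 ^ (a + 2) * (n : ℝ) :=
    exists_shiftp a ha (fun x u : V => G.dist x u)
  obtain ⟨m, hm⟩ : ∃ m : V → ℝ, m = fun u => sg n a (ω u) := ⟨_, rfl⟩
  have hm1 : ∀ u, 1 ≤ m u := fun u => by
    rw [hm]
    exact sg_ge n a (ω u) (ω u).isLt
  have hma : ∀ u, m u ^ a ≤ n := fun u => by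
    rw [hm]
    exact sg_pow_le n a (ω u) ha
  obtain ⟨vl, hvl⟩ : ∃ vl : V → V → ℝ, vl = fun x u => m u - (G.dist x u : ℝ) := ⟨_, rfl⟩
  obtain ⟨F, hF⟩ : ∃ F : V → ℝ, F = fun x => Fs n a (fun x u : V => G.dist x u) ω x := ⟨_, rfl⟩
  have hvl' : ∀ x u, vl x u = m u - (G.dist x u : ℝ) := fun x u => by rw [hvl]
  have hω' : ∑ x, ∑ u, 1 / (1 + (F x - vl x u)) ^ (a + 2) ≤ 3 * 2 ^ (a + 2) * (n : ℝ) := by
    rw [hF, hvl, hm]
    exact hω
  have hFle : ∀ x u, vl x u ≤ F x := fun x u => by
    rw [hF, hvl, hm]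
    exact Finset.le_sup' (fun u => sg n a (ω u) - (G.dist x u : ℝ)) (Finset.mem_univ u)
  have hFex : ∀ x, ∃ u, vl x u = F x := by
    intro x
    obtain ⟨u, -, hu⟩ := Finset.exists_mem_eq_sup' (Finset.univ_nonempty (α := V))
      (fun u => sg n a (ω u) - (G.dist x u : ℝ))
    refine ⟨u, ?_⟩
    rw [hF, hvl, hm]
    exact hu.symm
  have hF1 : ∀ x, 1 ≤ F x := by
    intro x
    have h1 := hFle x x
    rw [hvl', SimpleGraph.dist_self, Nat.cast_zero, sub_zero] at h1
    linarith [hm1 x]
  -- comparison of the values at two vertices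
  have hmove : ∀ x y u, vl y u - (G.dist x y : ℝ) ≤ vl x u := by
    intro x y u
    have h2 : G.dist x u ≤ G.dist x y + G.dist y u := hG.dist_triangle
    have h3 : (G.dist x u : ℝ) ≤ G.dist x y + G.dist y u := by exact_mod_cast h2
    rw [hvl', hvl']
    linarith
  have hFmove : ∀ x y, F y - (G.dist x y : ℝ) ≤ F x := by
    intro x y
    obtain ⟨u, hu⟩ := hFex y
    rw [← hu]
    exact (hmove x y u).trans (hFle x u)
  -- clusters
  set e := Fintype.equivFin V with he
  have hcl : ∀ x, ∃ u, vl x u = F x ∧ ∀ u', vl x u' = F x → e u ≤ e u' := by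
    intro x
    obtain ⟨u0, hu0⟩ := hFex x
    obtain ⟨u, hu, hum⟩ := Finset.exists_min_image (Finset.univ.filter (fun u => vl x u = F x)) e
      ⟨u0, by simp [hu0]⟩
    exact ⟨u, (Finset.mem_filter.mp hu).2, fun u' hu' => hum u' (by simp [hu'])⟩
  choose cl hcl1 hcl2 using hcl
  have hself : ∀ x, vl (cl x) (cl x) = F (cl x) := by
    intro x
    refine le_antisymm (hFle _ _) ?_
    have h1 := hFmove x (cl x)
    rw [← hcl1 x, hvl'] at h1
    rw [hvl', SimpleGraph.dist_self, Nat.cast_zero]
    linarith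
  have hidem : ∀ x, cl (cl x) = cl x := by
    intro x
    apply e.injective
    apply le_antisymm
    · exact hcl2 (cl x) (cl x) (hself x)
    · apply hcl2 x (cl (cl x))
      refine le_antisymm (hFle _ _) ?_
      have h0 := hcl1 (cl x)
      rw [← hself x] at h0
      rw [← hcl1 x]
      have h1 := hmove x (cl x) (cl (cl x))
      rw [h0, hvl' (cl x) (cl x), SimpleGraph.dist_self, Nat.cast_zero] at h1
      rw [hvl' x (cl x)]
      linarith
  refine ⟨cl, fun x u => 1 / (1 + (F x - vl x u)) ^ (a + 2), hidem, ?_, ?_, ?_, ?_, hω'⟩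
  · -- star shape
    intro x hx
    have hd0 : G.dist x (cl x) ≠ 0 := fun h => hx ((hG.dist_eq_zero_iff).mp h).symm
    obtain ⟨d, hd⟩ := Nat.exists_eq_succ_of_ne_zero hd0
    obtain ⟨z, hz1, hz2⟩ := exists_closer hG x (cl x) d hd
    have hxz : G.dist x z = 1 := SimpleGraph.dist_eq_one_iff_adj.mpr hz1
    have hFx : F x = vl z (cl x) - 1 := by
      rw [← hcl1 x, hvl', hvl', hd, hz2]
      push_cast
      ring
    have hzF : vl z (cl x) = F z := by
      refine le_antisymm (hFle z _) ?_
      have h1 := hFmove x z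
      rw [hxz, Nat.cast_one, hFx] at h1
      linarith
    refine ⟨z, hz1, ?_, by rw [hz2, hd]⟩
    apply e.injective
    apply le_antisymm
    · exact hcl2 z (cl x) hzF
    · apply hcl2 x (cl z)
      refine le_antisymm (hFle _ _) ?_
      have h1 := hmove x z (cl z)
      rw [hxz, Nat.cast_one, hcl1 z, ← hzF] at h1
      rw [hFx]
      exact h1
  · intro x
    have h1 : (G.dist x (cl x) : ℝ) ≤ m (cl x) := by
      have h2 := hcl1 x
      rw [hvl'] at h2
      linarith [hF1 x]
    have h2 : (G.dist x (cl x) : ℝ) ^ a ≤ n :=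
      (pow_le_pow_left₀ (Nat.cast_nonneg _) h1 a).trans (hma (cl x))
    exact_mod_cast h2
  · intro x u
    have h1 : 0 ≤ F x - vl x u := by linarith [hFle x u]
    show 0 ≤ 1 / (1 + (F x - vl x u)) ^ (a + 2)
    positivity
  · intro x y
    have h1 := hmove x y (cl y)
    rw [hcl1 y] at h1
    have h2 := hFmove y x
    rw [SimpleGraph.dist_comm] at h2
    have h3 : 0 ≤ F x - vl x (cl y) := by linarith [hFle x (cl y)]
    show 1 / (1 + 2 * (G.dist x y : ℝ)) ^ (a + 2) ≤ 1 / (1 + (F x - vl x (cl y))) ^ (a + 2)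
    refine one_div_le_one_div_of_le (by positivity) (pow_le_pow_left₀ (by linarith) ?_ _)
    linarith

end Pool.Agent.H977.CEP
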