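import Pool.Agent.H812.SO.Stm

/-!
# Sturm comparison, lower bound for the distance of two consecutive zeros (helper977 for helper812, MP_83fd13)
-/

set_option autoImplicit false

namespace Pool.Agent.H977.SoSTL

open Set Filter Topology Pool.Agent.H812.SO Pool.Agent.N229.SC

theorem der_nonpos (w : ℝ → ℝ) (a b d : ℝ) (hab : a < b) (hd : HasDerivAt w d b) (hb : w b = 0)
    (hpos : ∀ t ∈ Ioo a b, 0 < w t) : d ≤ 0 := by
  have h1 : Tendsto (slope w b) (𝓝[<] b) (𝓝 d) :=
    (hasDerivAt_iff_tendsto_slope.mp hd).mono_left (nhdsWithin_mono _ fun x hx => ne_of_lt hx)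
  refine le_of_tendsto h1 ?_
  filter_upwards [Ioo_mem_nhdsLT hab] with t ht
  rw [slope_def_field, hb, sub_zero]
  exact div_nonpos_of_nonneg_of_nonpos (hpos t ht).le (by linarith [ht.2])

theorem core (w w1 q : ℝ → ℝ) (a b Ω : ℝ) (hΩ : 0 < Ω) (hab : a < b)
    (h : ∀ t ∈ Icc a b, HasDerivAt w (w1 t) t ∧ HasDerivAt w1 (-(q t) * w t) t ∧ q t < Ω ^ 2)
    (ha : w a = 0) (hb : w b = 0) (hpos : ∀ t ∈ Ioo a b, 0 < w t) : Real.pi / Ω < b - a := by
  by_contra hcon
  rw [not_lt, le_div_iff₀ hΩ] at hcon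
  obtain ⟨Φ, hΦ⟩ : ∃ Φ : ℝ → ℝ, Φ = fun t => w1 t * Real.sin (Ω * (t - a)) -
    w t * (Ω * Real.cos (Ω * (t - a))) := ⟨_, rfl⟩
  have hder : ∀ t ∈ Icc a b, HasDerivAt Φ ((Ω ^ 2 - q t) * w t * Real.sin (Ω * (t - a))) t := by
    intro t ht
    obtain ⟨h1, h2, -⟩ := h t ht
    have h3 : HasDerivAt (fun t => Ω * (t - a)) Ω t := by
      simpa using ((hasDerivAt_id t).sub_const a).const_mul Ω
    have h4 : HasDerivAt (fun t => Real.sin (Ω * (t - a))) (Real.cos (Ω * (t - a)) * Ω) t := h3.sin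
    have h5 : HasDerivAt (fun t => Ω * Real.cos (Ω * (t - a))) (Ω * (-Real.sin (Ω * (t - a)) * Ω)) t :=
      h3.cos.const_mul Ω
    have h6 := (h2.mul h4).sub (h1.mul h5)
    rw [hΦ]
    refine h6.congr_deriv ?_
    ring
  have hmono : StrictMonoOn Φ (Icc a b) := by
    refine strictMonoOn_of_deriv_pos (convex_Icc a b)
      (fun t ht => (hder t ht).continuousAt.continuousWithinAt) ?_
    intro t ht
    rw [interior_Icc] at ht
    rw [(hder t (Ioo_subset_Icc_self ht)).deriv]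
    have h7 := (h t (Ioo_subset_Icc_self ht)).2.2
    have h8 : 0 < Real.sin (Ω * (t - a)) := by
      apply Real.sin_pos_of_pos_of_lt_pi
      · have := ht.1
        apply mul_pos hΩ
        linarith
      · have := ht.2
        have h9 : Ω * (t - a) < (b - a) * Ω := by nlinarith
        linarith
    have h9 := hpos t ht
    have h10 : 0 < Ω ^ 2 - q t := by linarith
    positivity
  have h10 := hmono (left_mem_Icc.mpr hab.le) (right_mem_Icc.mpr hab.le) hab
  have h11 : Φ a = 0 := by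
    rw [hΦ]
    simp [ha]
  have h12 : Φ b = w1 b * Real.sin (Ω * (b - a)) := by
    rw [hΦ]
    simp [hb]
  have h13 := der_nonpos w a b (w1 b) hab (h b (right_mem_Icc.mpr hab.le)).1 hb hpos
  have h14 : 0 ≤ Real.sin (Ω * (b - a)) := by
    apply Real.sin_nonneg_of_nonneg_of_le_pi
    · have : 0 < b - a := by linarith
      positivity
    · linarith
  nlinarith [mul_nonneg (neg_nonneg.mpr h13) h14]

theorem sgn (w : ℝ → ℝ) (a b : ℝ) (hc : ContinuousOn w (Icc a b)) (hne : ∀ t ∈ Ioo a b, w t ≠ 0) :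
    (∀ t ∈ Ioo a b, 0 < w t) ∨ (∀ t ∈ Ioo a b, w t < 0) := by
  by_contra hcon
  push Not at hcon
  obtain ⟨⟨s, hs, hs'⟩, ⟨t, ht, ht'⟩⟩ := hcon
  obtain ⟨x, hx, hx0⟩ := isPreconnected_Ioo.intermediate_value hs ht (hc.mono Ioo_subset_Icc_self)
    ⟨hs', ht'⟩
  exact hne x hx hx0

theorem proof_STL : S_STL := by
  intro w w1 q a b Ω hΩ hab h ha hb hne
  have hc : ContinuousOn w (Icc a b) := fun t ht => (h t ht).1.continuousAt.continuousWithinAt
  rcases sgn w a b hc hne with hp | hn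
  · exact core w w1 q a b Ω hΩ hab h ha hb hp
  · refine core (fun t => -w t) (fun t => -w1 t) q a b Ω hΩ hab ?_ (by simp [ha]) (by simp [hb])
      (fun t ht => by
        have := hn t ht
        show 0 < -w t
        linarith)
    intro t ht
    obtain ⟨h1, h2, h3⟩ := h t ht
    refine ⟨h1.neg, ?_, h3⟩
    refine h2.neg.congr_deriv ?_
    ring

end Pool.Agent.H977.SoSTL
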