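import Pool.Agent.H666.LRC.Defs2

set_option autoImplicit false

/-! Part U1 of the project LRC: a sum with logarithms and a shift. -/

open MeasureTheory

namespace Pool.Agent.H977.LRC

theorem pow_log (p : ℕ) (z : ℝ) (hz : 1 ≤ z) :
    (1 + 2 * Real.log z) ^ p ≤ (4 * (p : ℝ) + 5) ^ p * √z := by
  have hp : (0 : ℝ) ≤ p := Nat.cast_nonneg p
  set ε : ℝ := 1 / (2 * ((p : ℝ) + 1)) with hε
  have hε0 : 0 < ε := by positivity
  have h1 : Real.log z ≤ z ^ ε / ε := Real.log_le_rpow_div (by linarith) hε0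
  have h2 : 1 ≤ z ^ ε := Real.one_le_rpow hz hε0.le
  have h3 : z ^ ε / ε = 2 * ((p : ℝ) + 1) * z ^ ε := by
    rw [hε]
    field_simp
  have h4 : 1 + 2 * Real.log z ≤ (4 * (p : ℝ) + 5) * z ^ ε := by
    rw [h3] at h1
    nlinarith
  have h0 : 0 ≤ 1 + 2 * Real.log z := by
    have := Real.log_nonneg hz
    linarith
  calc (1 + 2 * Real.log z) ^ p ≤ ((4 * (p : ℝ) + 5) * z ^ ε) ^ p := pow_le_pow_left₀ h0 h4 p
    _ = (4 * (p : ℝ) + 5) ^ p * (z ^ ε) ^ p := mul_pow _ _ _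
    _ ≤ (4 * (p : ℝ) + 5) ^ p * √z := by
      apply mul_le_mul_of_nonneg_left _ (by positivity)
      rw [← Real.rpow_natCast (z ^ ε) p, ← Real.rpow_mul (by linarith), Real.sqrt_eq_rpow]
      apply Real.rpow_le_rpow_of_exponent_le hz
      rw [hε, div_mul_eq_mul_div, one_mul, div_le_div_iff₀ (by positivity) (by norm_num)]
      linarith

/-- `(1 + |y|)^(-3/2)` -/
noncomputable def ph (y : ℝ) : ℝ := (1 + |y|) ^ (-(3 / 2) : ℝ)

theorem ph_nonneg (y : ℝ) : 0 ≤ ph y := Real.rpow_nonneg (by positivity) _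

theorem ph_cont : Continuous ph := by
  unfold ph
  refine Continuous.rpow_const (continuous_const.add continuous_abs) fun y => Or.inl ?_
  positivity

theorem ph_int : Integrable ph := by
  have h := integrable_one_add_norm (E := ℝ) (μ := volume) (r := 3 / 2) (by
    rw [Module.finrank_self]
    norm_num)
  exact h

theorem ph_near {h x y : ℝ} (hh : h ≤ 1 / 2) (hxy : |x - y| ≤ h) : ph x / 2 ≤ ph y := by
  have h1 : 1 + |y| ≤ 3 / 2 * (1 + |x|) := by
    have h2 : |y| ≤ |x| + |x - y| := by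
      have h3 := abs_sub_abs_le_abs_sub y x
      rw [abs_sub_comm] at h3
      linarith
    have := abs_nonneg x
    linarith
  have h0 : 0 < 1 + |y| := by positivity
  have hx : 0 < 1 + |x| := by positivity
  have h2 : (3 / 2 * (1 + |x|)) ^ (-(3 / 2) : ℝ) ≤ (1 + |y|) ^ (-(3 / 2) : ℝ) :=
    Real.rpow_le_rpow_of_nonpos h0 h1 (by norm_num)
  rw [Real.mul_rpow (by norm_num) hx.le] at h2
  have h3 : (1 / 2 : ℝ) ≤ (3 / 2 : ℝ) ^ (-(3 / 2) : ℝ) := by
    rw [Real.rpow_neg (by norm_num), one_div]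
    refine inv_anti₀ (by positivity) ?_
    have h4 : ((3 / 2 : ℝ) ^ (3 / 2 : ℝ)) ^ 2 = 27 / 8 := by
      rw [← Real.rpow_natCast, ← Real.rpow_mul (by norm_num)]
      norm_num
    nlinarith [Real.rpow_nonneg (show (0 : ℝ) ≤ 3 / 2 by norm_num) (3 / 2 : ℝ)]
  have h5 := ph_nonneg x
  unfold ph at h5 ⊢
  nlinarith

theorem sum_ph (h ρ : ℝ) (h0 : 0 < h) (hh : h ≤ 1 / 2) (R : ℕ) :
    ∑ k ∈ Finset.Icc 1 R, h / 2 * ph (h * k - ρ) ≤ ∫ y in (-ρ)..(h * R - ρ), ph y := by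
  induction R with
  | zero => simp
  | succ R ih =>
    rw [Finset.sum_Icc_succ_top (by omega)]
    have hi : ∀ a b : ℝ, IntervalIntegrable ph volume a b := fun a b => ph_cont.intervalIntegrable a b
    rw [← intervalIntegral.integral_add_adjacent_intervals (hi (-ρ) (h * R - ρ)) (hi _ _)]
    refine add_le_add ih ?_
    have hle : h * (R : ℝ) - ρ ≤ h * ((R + 1 : ℕ) : ℝ) - ρ := by
      push_cast
      nlinarith
    have h1 := intervalIntegral.integral_mono_on hle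
      (intervalIntegrable_const (c := ph (h * ((R + 1 : ℕ) : ℝ) - ρ) / 2)) (hi _ _) (fun y hy => by
        refine ph_near hh (x := h * ((R + 1 : ℕ) : ℝ) - ρ) ?_
        rw [abs_of_nonneg (by linarith [hy.2])]
        have h2 : h * ((R + 1 : ℕ) : ℝ) = h * (R : ℝ) + h := by push_cast; ring
        linarith [hy.1])
    rw [intervalIntegral.integral_const, smul_eq_mul] at h1
    refine le_trans (le_of_eq ?_) h1
    push_cast
    ring

theorem sum_ph' (h ρ : ℝ) (h0 : 0 < h) (hh : h ≤ 1 / 2) (R : ℕ) :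
    ∑ k ∈ Finset.Icc 1 R, ph (h * k - ρ) ≤ 2 * (∫ y, ph y) / h := by
  have h1 := sum_ph h ρ h0 hh R
  have h2 : ∫ y in (-ρ)..(h * R - ρ), ph y ≤ ∫ y, ph y := by
    rw [intervalIntegral.integral_of_le (by
      have : 0 ≤ h * (R : ℝ) := by positivity
      linarith)]
    exact setIntegral_le_integral ph_int (Filter.Eventually.of_forall ph_nonneg)
  rw [← Finset.mul_sum] at h1
  rw [le_div_iff₀ h0]
  nlinarith

theorem U1 : Pool.Agent.H666.LRC.S_logsum2 := by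
  intro p
  have hI : 0 ≤ ∫ y, ph y := integral_nonneg ph_nonneg
  refine ⟨4 * (3 ^ p * (4 * (p : ℝ) + 5) ^ p) * (∫ y, ph y), by positivity, ?_⟩
  intro h ρ hh hh2 hρ0 hρ R
  set L := Real.log (1 / h) with hL
  have hL2 : 1 / 2 ≤ L := by
    have h1 : Real.log 2 ≤ L := by
      apply Real.log_le_log (by norm_num)
      rw [le_div_iff₀ hh]
      linarith
    have h2 := Real.log_two_gt_d9
    linarith
  have hA : 0 < (4 * (p : ℝ) + 5) ^ p := by positivity
  have term : ∀ k ∈ Finset.Icc 1 R, Real.log ((k : ℝ) + 1) ^ p / (1 + (h * k - ρ) ^ 2) ≤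
      (2 * (3 ^ p * (4 * (p : ℝ) + 5) ^ p) * L ^ p) * ph (h * k - ρ) := by
    intro k hk
    have hk0 : (0 : ℝ) ≤ k := Nat.cast_nonneg k
    set y := |h * (k : ℝ) - ρ| with hy
    have hy0 : 0 ≤ y := abs_nonneg _
    have hysq : (h * (k : ℝ) - ρ) ^ 2 = y ^ 2 := (sq_abs _).symm
    set z := 1 + y with hz
    have hz1 : 1 ≤ z := by linarith
    have hz0 : 0 < z := by linarith
    have l0 : (k : ℝ) + 1 ≤ (1 / h) ^ 3 * z := by
      have e1 : 1 + h * (k : ℝ) ≤ (1 + ρ) * z := by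
        have : h * (k : ℝ) - ρ ≤ y := le_abs_self _
        rw [hz]
        nlinarith
      have e2 : 1 + ρ ≤ (1 / h) ^ 2 := by
        have e3 : 2 ≤ 1 / h := by
          rw [le_div_iff₀ hh]
          linarith
        nlinarith
      have e4 : (k : ℝ) + 1 ≤ (1 / h) * (1 + h * (k : ℝ)) := by
        rw [div_mul_eq_mul_div, one_mul, le_div_iff₀ hh]
        nlinarith
      have h1h : 0 ≤ 1 / h := by positivity
      calc (k : ℝ) + 1 ≤ (1 / h) * (1 + h * (k : ℝ)) := e4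
        _ ≤ (1 / h) * ((1 + ρ) * z) := mul_le_mul_of_nonneg_left e1 h1h
        _ ≤ (1 / h) * ((1 / h) ^ 2 * z) :=
          mul_le_mul_of_nonneg_left (mul_le_mul_of_nonneg_right e2 hz0.le) h1h
        _ = (1 / h) ^ 3 * z := by ring
    have l1 : Real.log ((k : ℝ) + 1) ≤ 3 * L + Real.log z := by
      have e1 : Real.log ((1 / h) ^ 3 * z) = 3 * L + Real.log z := by
        rw [Real.log_mul (by positivity) hz0.ne', Real.log_pow, hL]
        norm_num
      rw [← e1]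
      exact Real.log_le_log (by positivity) l0
    have l2 : 0 ≤ Real.log z := Real.log_nonneg hz1
    have l3 : Real.log ((k : ℝ) + 1) ≤ 3 * L * (1 + 2 * Real.log z) := by nlinarith
    have l4 : 0 ≤ Real.log ((k : ℝ) + 1) := Real.log_nonneg (by linarith)
    have l5 : Real.log ((k : ℝ) + 1) ^ p ≤ 3 ^ p * L ^ p * ((4 * (p : ℝ) + 5) ^ p * √z) := by
      calc Real.log ((k : ℝ) + 1) ^ p ≤ (3 * L * (1 + 2 * Real.log z)) ^ p :=
            pow_le_pow_left₀ l4 l3 p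
        _ = 3 ^ p * L ^ p * (1 + 2 * Real.log z) ^ p := by rw [mul_pow, mul_pow]
        _ ≤ 3 ^ p * L ^ p * ((4 * (p : ℝ) + 5) ^ p * √z) :=
          mul_le_mul_of_nonneg_left (pow_log p z hz1) (by positivity)
    have hs0 : 0 < √z := Real.sqrt_pos.2 hz0
    have hq : z ^ 2 ≤ 2 * (1 + y ^ 2) := by
      rw [hz]
      nlinarith [sq_nonneg (1 - y)]
    have hden : 0 < 1 + y ^ 2 := by positivity
    have hr : √z / z ^ 2 = ph (h * k - ρ) := by
      unfold ph
      rw [← hy, ← hz, Real.sqrt_eq_rpow, ← Real.rpow_natCast z 2, ← Real.rpow_sub hz0]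
      norm_num
    have hs : √z / (1 + y ^ 2) ≤ 2 * ph (h * k - ρ) := by
      rw [← hr, div_le_iff₀ hden]
      have e1 : 2 * (√z / z ^ 2) * (1 + y ^ 2) = √z * ((2 * (1 + y ^ 2)) / z ^ 2) := by ring
      rw [e1]
      refine le_mul_of_one_le_right hs0.le ?_
      rw [le_div_iff₀ (by positivity), one_mul]
      exact hq
    rw [hysq]
    calc Real.log ((k : ℝ) + 1) ^ p / (1 + y ^ 2)
        ≤ (3 ^ p * L ^ p * ((4 * (p : ℝ) + 5) ^ p * √z)) / (1 + y ^ 2) :=
          div_le_div_of_nonneg_right l5 hden.le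
      _ = (3 ^ p * L ^ p * (4 * (p : ℝ) + 5) ^ p) * (√z / (1 + y ^ 2)) := by ring
      _ ≤ (3 ^ p * L ^ p * (4 * (p : ℝ) + 5) ^ p) * (2 * ph (h * k - ρ)) :=
          mul_le_mul_of_nonneg_left hs (by positivity)
      _ = (2 * (3 ^ p * (4 * (p : ℝ) + 5) ^ p) * L ^ p) * ph (h * k - ρ) := by ring
  calc ∑ k ∈ Finset.Icc 1 R, Real.log ((k : ℝ) + 1) ^ p / (1 + (h * k - ρ) ^ 2)
      ≤ ∑ k ∈ Finset.Icc 1 R, (2 * (3 ^ p * (4 * (p : ℝ) + 5) ^ p) * L ^ p) * ph (h * k - ρ) :=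
        Finset.sum_le_sum term
    _ = (2 * (3 ^ p * (4 * (p : ℝ) + 5) ^ p) * L ^ p) * ∑ k ∈ Finset.Icc 1 R, ph (h * k - ρ) := by
        rw [Finset.mul_sum]
    _ ≤ (2 * (3 ^ p * (4 * (p : ℝ) + 5) ^ p) * L ^ p) * (2 * (∫ y, ph y) / h) :=
        mul_le_mul_of_nonneg_left (sum_ph' h ρ hh hh2 R) (by positivity)
    _ = 4 * (3 ^ p * (4 * (p : ℝ) + 5) ^ p) * (∫ y, ph y) * L ^ p / h := by ring

end Pool.Agent.H977.LRC
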