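import Pool.Agent.H770.SN.Stm
import Pool.Agent.H736.LF.PL1

/-!
# SN7: the multiplicative Prekopa-Leindler inequality on the line for even functions
(helper977 for helper770)
-/

set_option autoImplicit false

open MeasureTheory Set Function
open scoped ENNReal

namespace Pool.Agent.H977.SN7

theorem even_int (f : ℝ → ℝ≥0∞) (he : ∀ t, f (-t) = f t) :
    ∫⁻ s, f s = 2 * ∫⁻ s in Ioi 0, f s := by
  have h1 := lintegral_add_compl (μ := (volume : Measure ℝ)) f (measurableSet_Ioi (a := (0 : ℝ)))
  have h2 : ∫⁻ s in (Ioi (0 : ℝ))ᶜ, f s = ∫⁻ s in Ioi 0, f s := by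
    rw [compl_Ioi, ← setLIntegral_congr (Iio_ae_eq_Iic (a := (0 : ℝ)))]
    have h3 := (Measure.measurePreserving_neg (volume : Measure ℝ)).setLIntegral_comp_preimage_emb
      (MeasurableEquiv.neg ℝ).measurableEmbedding f (Iio 0)
    rw [← h3]
    have h4 : (Neg.neg : ℝ → ℝ) ⁻¹' Iio 0 = Ioi 0 := by
      ext x
      simp
    rw [h4]
    exact lintegral_congr fun s => he s
  rw [← h1, h2, two_mul]

theorem exp_int (f : ℝ → ℝ≥0∞) :
    ∫⁻ s in Ioi 0, f s = ∫⁻ u : ℝ, ENNReal.ofReal (Real.exp u) * f (Real.exp u) := by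
  have h1 := lintegral_image_eq_lintegral_abs_deriv_mul (s := (univ : Set ℝ)) (f := Real.exp)
    (f' := Real.exp) MeasurableSet.univ
    (fun x _ => (Real.hasDerivAt_exp x).hasDerivWithinAt) Real.exp_injective.injOn f
  rw [image_univ, Real.range_exp, setLIntegral_univ] at h1
  rw [h1]
  exact lintegral_congr fun u => by rw [abs_of_pos (Real.exp_pos u)]

theorem t_M1 : Pool.Agent.H770.SN.S_M1 := by
  intro f g h hf hg hh hfe hge hhe hfgh
  rw [even_int f hfe, even_int g hge, even_int h hhe, exp_int f, exp_int g, exp_int h]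
  have h1 := Pool.Agent.H736.LF.t_PL1
    (fun u => ENNReal.ofReal (Real.exp u) * f (Real.exp u))
    (fun u => ENNReal.ofReal (Real.exp u) * g (Real.exp u))
    (fun u => ENNReal.ofReal (Real.exp u) * h (Real.exp u))
    (by fun_prop) (by fun_prop) (by fun_prop) (by
      intro s t
      have h2 : Real.sqrt (Real.exp s * Real.exp t) = Real.exp ((s + t) / 2) := by
        have h3 : Real.exp s * Real.exp t = Real.exp ((s + t) / 2) ^ 2 := by
          rw [← Real.exp_add, ← Real.exp_nat_mul]
          congr 1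
          push_cast
          ring
        rw [h3, Real.sqrt_sq (Real.exp_pos _).le]
      have h4 : ENNReal.ofReal (Real.exp s) * ENNReal.ofReal (Real.exp t) =
          ENNReal.ofReal (Real.exp ((s + t) / 2)) ^ 2 := by
        rw [← ENNReal.ofReal_mul (Real.exp_pos _).le, ← ENNReal.ofReal_pow (Real.exp_pos _).le]
        congr 1
        rw [← Real.exp_add, ← Real.exp_nat_mul]
        congr 1
        push_cast
        ring
      have h5 := hfgh (Real.exp s) (Real.exp t) (Real.exp_pos s) (Real.exp_pos t)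
      rw [h2] at h5
      calc ENNReal.ofReal (Real.exp s) * f (Real.exp s) *
            (ENNReal.ofReal (Real.exp t) * g (Real.exp t))
          = ENNReal.ofReal (Real.exp s) * ENNReal.ofReal (Real.exp t) *
            (f (Real.exp s) * g (Real.exp t)) := by ring
        _ ≤ ENNReal.ofReal (Real.exp ((s + t) / 2)) ^ 2 * h (Real.exp ((s + t) / 2)) ^ 2 := by
            rw [h4]
            gcongr
        _ = (ENNReal.ofReal (Real.exp ((s + t) / 2)) * h (Real.exp ((s + t) / 2))) ^ 2 := by
            rw [mul_pow])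
  calc 2 * (∫⁻ u : ℝ, ENNReal.ofReal (Real.exp u) * f (Real.exp u)) *
        (2 * ∫⁻ u : ℝ, ENNReal.ofReal (Real.exp u) * g (Real.exp u))
      = 4 * ((∫⁻ u : ℝ, ENNReal.ofReal (Real.exp u) * f (Real.exp u)) *
        ∫⁻ u : ℝ, ENNReal.ofReal (Real.exp u) * g (Real.exp u)) := by ring
    _ ≤ 4 * (∫⁻ u : ℝ, ENNReal.ofReal (Real.exp u) * h (Real.exp u)) ^ 2 := by gcongr
    _ = (2 * ∫⁻ u : ℝ, ENNReal.ofReal (Real.exp u) * h (Real.exp u)) ^ 2 := by ring

end Pool.Agent.H977.SN7
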